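import Pool.Agent.helper70.LZ.SpecZ
import Pool.Agent.helper59.FI.Base

/-!
# Project LE, block BOUND-Z, row ZNV: the numbers `az ψ z` are not zero
-/

set_option autoImplicit false

namespace Pool.Agent.LE

open Pool.Agent.helper58.DC Pool.Agent.DI Pool.Agent.GR Pool.Agent.OB Pool.Agent.DR Pool.Agent.FI Pool.Agent.FI3 Pool.Agent.FI4

section

variable {G : Type} [Group G]

theorem ZNV_sumq [Fintype G] (K : Subgroup G) [Fintype (G ⧸ K)] (f : G → ℂ) (hf : ∀ g, ∀ k ∈ K, f (g * k) = f g) :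
    ∑ g, f g = (Nat.card K : ℂ) * ∑ q : G ⧸ K, f q.out := by
  classical
  have : Fintype K := Fintype.ofFinite _
  have hb : Function.Bijective (fun a : (G ⧸ K) × K => a.1.out * (a.2 : G)) := by
    constructor
    · rintro ⟨q, k⟩ ⟨q', k'⟩ h
      have h1 : q.out * (k : G) = q'.out * (k' : G) := h
      have hq : q = q' := by
        rw [← QuotientGroup.out_eq' q, ← QuotientGroup.out_eq' q', QuotientGroup.eq]
        have h2 : q.out⁻¹ * q'.out = k * (k' : G)⁻¹ := by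
          have h3 : q'.out = q.out * (k : G) * (k' : G)⁻¹ := by
            rw [h1]
            group
          rw [h3]
          group
        rw [h2]
        exact K.mul_mem k.2 (K.inv_mem k'.2)
      subst hq
      have h4 : k = k' := Subtype.ext (mul_left_cancel h1)
      rw [h4]
    · intro g
      refine ⟨((g : G ⧸ K), ⟨(g : G ⧸ K).out⁻¹ * g, ?_⟩), ?_⟩
      · rw [← QuotientGroup.eq, QuotientGroup.out_eq']
      · show (g : G ⧸ K).out * ((g : G ⧸ K).out⁻¹ * g) = g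
        group
  rw [← (Equiv.ofBijective _ hb).sum_comp f, Fintype.sum_prod_type, Finset.mul_sum]
  refine Finset.sum_congr rfl fun q _ => ?_
  have h5 : ∀ k : K, f ((Equiv.ofBijective _ hb) (q, k)) = f q.out := fun k => hf q.out k k.2
  rw [Finset.sum_congr rfl (fun k _ => h5 k), Finset.sum_const, Finset.card_univ, nsmul_eq_mul, Nat.card_eq_fintype_card]

theorem ZNV_preg (p : ℕ) (k v : G) : PReg p (k * v * k⁻¹) ↔ PReg p v := by
  unfold PReg
  have h := orderOf_injective (MulAut.conj k).toMonoidHom (MulAut.conj k).injective v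
  have h1 : (MulAut.conj k).toMonoidHom v = k * v * k⁻¹ := rfl
  rw [h1] at h
  rw [h]

theorem ZNV_kap_inv [Finite G] (p : ℕ) (K : Subgroup G) (η : G → ℂ) (hη : η ∈ IrrOn K) {k : G} (hk : k ∈ K) (v : G) :
    kap p K η (k * v * k⁻¹) = kap p K η v := by
  classical
  unfold kap
  have h1 : (k * v * k⁻¹ ∈ K ∧ PReg p (k * v * k⁻¹)) ↔ (v ∈ K ∧ PReg p v) := by
    rw [ZNV_preg]
    refine and_congr_left fun _ => ⟨fun h => ?_, fun h => K.mul_mem (K.mul_mem hk h) (K.inv_mem hk)⟩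
    have h2 := K.mul_mem (K.mul_mem (K.inv_mem hk) h) hk
    have h3 : k⁻¹ * (k * v * k⁻¹) * k = v := by group
    rwa [h3] at h2
  have h4 : η (k * v * k⁻¹)⁻¹ = η v⁻¹ := by
    have h5 : (k * v * k⁻¹)⁻¹ = k * v⁻¹ * k⁻¹ := by group
    rw [h5, IrrOn_conj hη hk]
  by_cases h : v ∈ K ∧ PReg p v
  · rw [if_pos h, if_pos (h1.2 h), h4]
  · rw [if_neg h, if_neg fun h' => h (h1.1 h')]

theorem ZNV_kap_int [Finite G] (p : ℕ) (K : Subgroup G) (η : G → ℂ) (hη : η ∈ IrrOn K) (v : G) :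
    IsIntegral ℤ (kap p K η v) := by
  classical
  unfold kap
  split_ifs
  · exact IrrOn_int hη _
  · exact isIntegral_zero

/-- the translated function depends only on the coset -/
theorem ZNV_cos [Finite G] (p : ℕ) (K : Subgroup G) (z : G) (hcom : ∀ k ∈ K, z * k = k * z) (η : G → ℂ) (hη : η ∈ IrrOn K) (x g : G) {k : G}
    (hk : k ∈ K) : kap p K η (z⁻¹ * ((g * k)⁻¹ * x * (g * k))) = kap p K η (z⁻¹ * (g⁻¹ * x * g)) := by
  have hkz : z * k = k * z := hcom k hk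
  have hki : k⁻¹ ∈ K := Subgroup.inv_mem _ hk
  have h1 : z⁻¹ * ((g * k)⁻¹ * x * (g * k)) = k⁻¹ * (z⁻¹ * (g⁻¹ * x * g)) * k⁻¹⁻¹ := by
    have h2 : z⁻¹ * k⁻¹ = k⁻¹ * z⁻¹ := by
      rw [← mul_inv_rev, ← mul_inv_rev, hkz]
    calc z⁻¹ * ((g * k)⁻¹ * x * (g * k)) = (z⁻¹ * k⁻¹) * (g⁻¹ * x * g) * k := by group
      _ = (k⁻¹ * z⁻¹) * (g⁻¹ * x * g) * k := by rw [h2]
      _ = _ := by group
  rw [h1, ZNV_kap_inv p _ η hη hki]

theorem ZNV_ag [Finite G] (p : ℕ) (K : Subgroup G) (η ψ : G → ℂ) (z g : G) (hψ : ∀ x, ψ (g * x * g⁻¹) = ψ x) :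
    ag p K η ψ z g = (Nat.card K : ℂ) * az p K η ψ z / ψ 1 := by
  classical
  unfold ag cc az
  have hK : (Nat.card K : ℂ) ≠ 0 := by exact_mod_cast Nat.card_pos.ne'
  rw [mul_div_cancel₀ _ hK]
  congr 1
  rw [← finsum_comp_equiv ((Equiv.mulLeft z).trans (MulAut.conj g).toEquiv)]
  refine finsum_congr fun v => ?_
  have h1 : ((Equiv.mulLeft z).trans (MulAut.conj g).toEquiv) v = g * (z * v) * g⁻¹ := rfl
  rw [h1]
  have h2 : z⁻¹ * (g⁻¹ * (g * (z * v) * g⁻¹) * g) = v := by group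
  show kap p K η (z⁻¹ * (g⁻¹ * (g * (z * v) * g⁻¹) * g)) * ψ (g * (z * v) * g⁻¹) = _
  rw [h2, hψ]
  unfold kap
  rw [finsum_eq_if]
  by_cases h : v ∈ K ∧ PReg p v
  · rw [if_pos h, if_pos (show v ∈ {v : G | v ∈ K ∧ PReg p v} from h)]
    ring
  · rw [if_neg h, if_neg (show v ∉ {v : G | v ∈ K ∧ PReg p v} from h)]
    ring

theorem ZNV_main [Finite G] (p : ℕ) (M : Ideal (integralClosure ℤ ℂ)) (hS : Setup p M) (D : Subgroup G) (θ : G → ℂ) (K : Subgroup G) (z : G) (hcom : ∀ k ∈ K, z * k = k * z)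
    (η₀ : G → ℂ) (hη : η₀ ∈ IrrOn K) (N : ℕ) (hN : ¬ p ∣ N)
    (hcard : {g : G | g * z * g⁻¹ ∈ D ∧ SB M K (cjF g⁻¹ θ) θ}.ncard = N * Nat.card K)
    (hA : ∀ g : G, ((g * z * g⁻¹ ∉ D ∨ ¬ SB M K (cjF g⁻¹ θ) θ) → InM M (ag p K η₀ θ z g)) ∧
    (g * z * g⁻¹ ∈ D → SB M K (cjF g⁻¹ θ) θ →
      InM M (ag p K η₀ θ z g - cc θ (kap p K η₀))))
    (hk : ¬ InM M (cc θ (kap p K η₀))) (ψ : G → ℂ) (hψ : ψ ∈ IrrOn (⊤ : Subgroup G)) (hSB : SB M (⊤ : Subgroup G) ψ θ) :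
    az p K η₀ ψ z ≠ 0 := by
  classical
  intro haz
  have : Fintype G := Fintype.ofFinite G
  have : Fintype (G ⧸ K) := Fintype.ofFinite _
  have hK0 : (Nat.card K : ℂ) ≠ 0 := by exact_mod_cast Nat.card_pos.ne'
  obtain ⟨w, hw⟩ : ∃ w : G → G → ℂ, w = fun g x => kap p K η₀ (z⁻¹ * (g⁻¹ * x * g)) := ⟨_, rfl⟩
  have hwk : ∀ x g : G, ∀ k ∈ K, w (g * k) x = w g x := by
    intro x g k hk
    rw [hw]
    exact ZNV_cos p K z hcom η₀ hη x g hk
  obtain ⟨W, hW⟩ : ∃ W : G → ℂ, W = fun x => ∑ q : G ⧸ K, w q.out x := ⟨_, rfl⟩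
  have hWs : ∀ x, (Nat.card K : ℂ) * W x = ∑ g, w g x := by
    intro x
    rw [ZNV_sumq K (fun g => w g x) (fun g k hk => hwk x g k hk), hW]
  have hWc : ∀ h x, W (h * x * h⁻¹) = W x := by
    intro h x
    apply mul_left_cancel₀ hK0
    rw [hWs (h * x * h⁻¹), hWs x, ← Equiv.sum_comp (Equiv.mulLeft h)]
    refine Finset.sum_congr rfl fun g _ => ?_
    rw [hw]
    show kap p K η₀ (z⁻¹ * ((h * g)⁻¹ * (h * x * h⁻¹) * (h * g))) = kap p K η₀ (z⁻¹ * (g⁻¹ * x * g))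
    congr 2
    group
  have hWi : ∀ x, IntAt M (W x) := by
    intro x
    rw [hW]
    refine IntAt.sum hS _ fun q _ => ?_
    rw [hw]
    exact IntAt.of_isIntegral hS (ZNV_kap_int p K η₀ hη _)
  have hCF : CF (⊤ : Subgroup G) W := ⟨fun h _ x => hWc h x, fun x hx => absurd (Subgroup.mem_top x) hx⟩
  have hcc : ∀ φ : G → ℂ, cc φ W = ∑ q : G ⧸ K, ag p K η₀ φ z q.out := by
    intro φ
    unfold ag cc
    rw [← Finset.sum_div]
    congr 1
    rw [finsum_eq_sum_of_fintype]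
    have h1 : ∀ q : G ⧸ K, ∑ᶠ x, (fun x => kap p K η₀ (z⁻¹ * ((q.out)⁻¹ * x * q.out))) x * φ x =
        ∑ x, w q.out x * φ x := by
      intro q
      rw [finsum_eq_sum_of_fintype, hw]
    rw [Finset.sum_congr rfl (fun q _ => h1 q), Finset.sum_comm]
    refine Finset.sum_congr rfl fun x _ => ?_
    rw [hW, Finset.sum_mul]
  -- the character `ψ`
  have hψ0 : cc ψ W = 0 := by
    rw [hcc]
    refine Finset.sum_eq_zero fun q _ => ?_
    rw [ZNV_ag p K η₀ ψ z _ fun x => IrrOn_conj hψ (Subgroup.mem_top _) x, haz, mul_zero, zero_div]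
  have hθ : InM M (cc θ W) := by
    have h1 := SBIb hS hSB hCF hWi
    rw [hψ0, zero_sub] at h1
    have h2 := h1.neg
    rwa [neg_neg] at h2
  -- the number of the cosets
  obtain ⟨c, hc⟩ : ∃ c : ℂ, c = cc θ (kap p K η₀) := ⟨_, rfl⟩
  obtain ⟨Z, hZ⟩ : ∃ Z : Set G, Z = {g : G | g * z * g⁻¹ ∈ D ∧ SB M K (cjF g⁻¹ θ) θ} := ⟨_, rfl⟩
  have hZk : ∀ g : G, ∀ k ∈ K, g * k ∈ Z ↔ g ∈ Z := by
    intro g k hk
    have hkz : z * k = k * z := hcom k hk
    have h1 : (g * k) * z * (g * k)⁻¹ = g * z * g⁻¹ := by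
      calc (g * k) * z * (g * k)⁻¹ = g * (k * z) * k⁻¹ * g⁻¹ := by group
        _ = g * (z * k) * k⁻¹ * g⁻¹ := by rw [hkz]
        _ = _ := by group
    have h2 : cjF (g * k)⁻¹ θ = cjF k⁻¹ (cjF g⁻¹ θ) := by
      rw [mul_inv_rev]
      exact funMap_mul _ _ _
    have h3 : SB M K (cjF k⁻¹ (cjF g⁻¹ θ)) (cjF g⁻¹ θ) := SB_inner (K.inv_mem hk) _
    rw [hZ]
    show ((g * k) * z * (g * k)⁻¹ ∈ D ∧ SB M K (cjF (g * k)⁻¹ θ) θ) ↔ (g * z * g⁻¹ ∈ D ∧ SB M K (cjF g⁻¹ θ) θ)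
    rw [h1, h2]
    exact and_congr_right fun _ => ⟨fun h => h3.symm.trans h, fun h => h3.trans h⟩
  have hsum : ∑ q : G ⧸ K, (if q.out ∈ Z then (1 : ℂ) else 0) = N := by
    apply mul_left_cancel₀ hK0
    rw [← ZNV_sumq K (fun g => if g ∈ Z then (1 : ℂ) else 0) (fun g k hk => by
      by_cases h : g ∈ Z
      · rw [if_pos h, if_pos ((hZk g k hk).2 h)]
      · rw [if_neg h, if_neg fun h' => h ((hZk g k hk).1 h')])]
    rw [Finset.sum_ite, Finset.sum_const_zero, add_zero, Finset.sum_const, nsmul_eq_mul, mul_one]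
    have h1 : (Finset.univ.filter fun g => g ∈ Z).card = Z.ncard := by
      rw [Set.ncard_eq_toFinset_card', Set.toFinset_card]
      rw [Fintype.card_subtype]
    rw [h1, hZ, hcard]
    push_cast
    ring
  have hNc : InM M ((N : ℂ) * c) := by
    have h1 : InM M (cc θ W - (N : ℂ) * c) := by
      rw [hcc, ← hsum, Finset.sum_mul, ← Finset.sum_sub_distrib]
      refine InM.sum hS _ fun q _ => ?_
      by_cases h : q.out ∈ Z
      · rw [if_pos h, one_mul, hc]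
        rw [hZ] at h
        exact (hA _).2 h.1 h.2
      · rw [if_neg h, zero_mul, sub_zero]
        rw [hZ] at h
        refine (hA _).1 ?_
        by_contra h'
        rw [not_or, not_not, not_not] at h'
        exact h h'
    have h2 := hθ.sub hS h1
    have h3 : cc θ W - (cc θ W - (N : ℂ) * c) = (N : ℂ) * c := by ring
    rwa [h3] at h2
  apply hk
  rw [← hc]
  -- `N` is prime to `p`
  obtain ⟨a, b, ha, hb, e⟩ := hNc
  have hNM : ((N : ℕ) : integralClosure ℤ ℂ) ∉ M := by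
    intro h
    have hpN : Nat.Coprime p N := (Nat.Prime.coprime_iff_not_dvd hS.pr).2 hN
    obtain ⟨u, v, huv⟩ : ∃ u v : ℤ, u * p + v * N = 1 := by
      have := Nat.isCoprime_iff_coprime.2 hpN
      exact this
    apply hS.one_not_mem
    have h1 : (1 : integralClosure ℤ ℂ) = (u : integralClosure ℤ ℂ) * (p : integralClosure ℤ ℂ) + (v : integralClosure ℤ ℂ) * (N : integralClosure ℤ ℂ) := by
      exact_mod_cast huv.symm
    rw [h1]
    exact M.add_mem (M.mul_mem_left _ hS.mem) (M.mul_mem_left _ h)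
  refine ⟨a, (N : integralClosure ℤ ℂ) * b, ha, hS.mul_not_mem hNM hb, ?_⟩
  rw [← e]
  push_cast
  ring

end

theorem ZNV (hZAG : ZAG_stmt) (hZCT : ZCT_stmt) : ZNV_stmt := by
  intro p M hS G _ _ D x θ χ hLo z hz η₀ hη hk ψ hψ
  obtain ⟨N, hN, hcard⟩ := hZCT p M hS G D x θ χ hLo z hz
  exact ZNV_main p M hS D θ _ z (fun k hk => (mem_Cz.1 hk).2) η₀ hη.1 N hN hcard (hZAG p M hS G D x θ χ hLo z hz η₀ hη) hk ψ hψ.1 hψ.2

end Pool.Agent.LE
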